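import Pool.Agent.Helper36.KL.Goals

/-!
# Packet LOC (helper36, project KV): local existence
-/

namespace Pool.Agent.Helper69.KL

open Set Filter Topology MeasureTheory Pool.Agent.Helper36.EV
open Pool.Agent.Helper36.KL
open scoped ContDiff

theorem BB_symm (m : ℕ) (x y : X) : BB m x y = BB m y x := by
  rw [BB_apply, BB_apply]
  refine Finset.sum_congr rfl fun k _ => integral_congr_ae (ae_of_all _ fun z => ?_)
  exact mul_comm _ _

theorem BB_self (m : ℕ) (x : X) :
    BB m x x = ∑ k ∈ Finset.range (m + 1), ∫ z, iteratedDeriv k x.1 z ^ 2 := by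
  rw [BB_apply]
  refine Finset.sum_congr rfl fun k _ => integral_congr_ae (ae_of_all _ fun z => ?_)
  exact (sq _).symm

theorem BB_nonneg (m : ℕ) (x : X) : 0 ≤ BB m x x := by
  rw [BB_self]
  exact Finset.sum_nonneg fun k _ => integral_nonneg fun z => sq_nonneg _

theorem BB_mono (m : ℕ) (x : X) : BB m x x ≤ BB (m + 1) x x := by
  rw [BB_self, BB_self, Finset.sum_range_succ _ (m + 1)]
  exact le_add_of_nonneg_right (integral_nonneg fun z => sq_nonneg _)

theorem int_le (w : X) {k m : ℕ} (h : k ≤ m) : ∫ z, iteratedDeriv k w.1 z ^ 2 ≤ BB m w w := by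
  rw [BB_self]
  exact Finset.single_le_sum (f := fun k => ∫ z, iteratedDeriv k w.1 z ^ 2)
    (fun k _ => integral_nonneg fun z => sq_nonneg _) (Finset.mem_range.2 (by omega))

theorem sup_le (w : X) (k : ℕ) (x : ℝ) : iteratedDeriv k w.1 x ^ 2 ≤ BB (k + 1) w w := by
  have h := sup_sq_le (iter_mem w.2 k) x
  rw [iter_iter, Nat.add_comm 1 k] at h
  refine h.trans ?_
  rw [BB_self, Finset.sum_range_succ, Finset.sum_range_succ]
  have : 0 ≤ ∑ j ∈ Finset.range k, ∫ z, iteratedDeriv j w.1 z ^ 2 :=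
    Finset.sum_nonneg fun k _ => integral_nonneg fun z => sq_nonneg _
  linarith

theorem FX_zero : FX 0 = 0 := by
  apply Subtype.ext
  show Fun (0 : ℝ → ℝ) = 0
  have h0 : ∀ k, iteratedDeriv k (0 : ℝ → ℝ) = 0 := by
    intro k
    induction k with
    | zero => simp
    | succ k ih => rw [iteratedDeriv_succ, ih]; funext x; simp
  unfold Fun
  rw [zero_pow (by norm_num), h0, h0]
  simp

/-- the scale -/
theorem exists_scale (h1 : G_CMP) (h2 : G_MOL) :
    ∃ S : Scale X (Lp ℝ 2 (volume : Measure ℝ)), S.B = BB := by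
  obtain ⟨hc, hi⟩ := h1
  obtain ⟨hb, J, ε, hε, hJ1, hJ2, hJ3, hJ4⟩ := h2
  exact ⟨⟨BB, iotaX, J, ε, BB_symm, BB_nonneg, BB_mono, hc, hi, hb, hJ1, hJ2, hJ3, hJ4, hε⟩, rfl⟩

theorem exp_half_lt : Real.exp (1 / 2) < 2 := by
  have h1 : Real.exp (1 / 2) ^ 2 = Real.exp 1 := by
    rw [← Real.exp_nat_mul]; norm_num
  have h2 := Real.exp_one_lt_d9
  have h3 := Real.exp_pos (1 / 2)
  nlinarith

/-- continuity of `FX` in all the norms -/
theorem FX_lim {S : Scale X (Lp ℝ 2 (volume : Measure ℝ))} (hS : S.B = BB)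
    (hL : ∀ m L, ∃ C, ∀ u v : X, BB (m + 3) u u ≤ L → BB (m + 3) v v ≤ L →
      BB m (FX u - FX v) (FX u - FX v) ≤ C * BB (m + 3) (u - v) (u - v))
    {ι : Type} {l : Filter ι} {x : ι → X} {x' : X}
    (h : ∀ m, Tendsto (fun i => S.q m (x i - x')) l (𝓝 0)) (m : ℕ) :
    Tendsto (fun i => S.q m (FX (x i) - FX x')) l (𝓝 0) := by
  have hq : ∀ m (y : X), S.q m y = BB m y y := fun m y => by rw [Scale.q, hS]
  obtain ⟨C, hC⟩ := hL m ((S.nrm (m + 3) x' + 1) ^ 2)
  have h1 : Tendsto (fun i => C * S.q (m + 3) (x i - x')) l (𝓝 0) := by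
    simpa using (h (m + 3)).const_mul C
  refine squeeze_zero' (Eventually.of_forall fun i => S.q_nonneg _ _) ?_ h1
  filter_upwards [(h (m + 3)).eventually (ge_mem_nhds one_pos)] with i hi
  rw [hq, hq]
  have hn0 := S.nrm_nonneg (m + 3) x'
  apply hC
  · rw [← hq]
    apply S.q_le_of_nrm_le
    have h2 : x i = x' + (x i - x') := by abel
    rw [h2]
    refine (S.nrm_add_le _ _ _).trans ?_
    have h3 : S.nrm (m + 3) (x i - x') ≤ 1 := by
      apply S.nrm_le_of_q_le _ zero_le_one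
      simpa using hi
    linarith
  · rw [← hq]
    apply S.q_le_of_nrm_le
    linarith

theorem loc : Pool.Agent.Helper36.KL.G_LOC := by
  intro hmain hcmp hmol hpr hen hlip Λ
  obtain ⟨S, hS⟩ := exists_scale hcmp hmol
  have hq : ∀ m (y : X), S.q m y = BB m y y := fun m y => by rw [Scale.q, hS]
  have hEN := hen hpr
  obtain ⟨hLa, hLb⟩ := hlip hpr
  set Λ' := max Λ 0 with hΛ'
  have hΛ0 : 0 ≤ Λ' := le_max_right _ _
  obtain ⟨c1, hc10, hc1⟩ := hEN 3 le_rfl (2 * (1 + Λ'))
  obtain ⟨c0, hc0⟩ := hLb 0 (2 * (1 + Λ'))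
  have hFb : ∀ u : X, BB 3 u u ≤ 2 * (1 + Λ') → BB 0 (FX u) (FX u) ≤ |c0| * (2 * (1 + Λ')) := by
    intro u hu
    have h1 := hc0 u 0 hu (by simp; linarith)
    rw [FX_zero, sub_zero, sub_zero] at h1
    refine h1.trans ?_
    refine (mul_le_mul_of_nonneg_right (le_abs_self c0) (BB_nonneg 3 u)).trans ?_
    exact mul_le_mul_of_nonneg_left hu (abs_nonneg _)
  set c2 := |c0| * (2 * (1 + Λ')) with hc2
  have hc20 : 0 ≤ c2 := by positivity
  set τ := min (1 / (4 * (c1 + 1))) (1 / (c2 + 1)) with hτdef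
  have hτ : 0 < τ := lt_min (by positivity) (by positivity)
  have hτ1 : τ ≤ 1 / (4 * (c1 + 1)) := min_le_left _ _
  have hτ2 : τ ≤ 1 / (c2 + 1) := min_le_right _ _
  have hτ1' : 2 * c1 * τ ≤ 1 / 2 := by
    rw [le_div_iff₀ (by positivity)] at hτ1
    nlinarith
  have hτ2' : c2 * τ ^ 2 < 1 := by
    have h1 : τ * (c2 + 1) ≤ 1 := by rwa [le_div_iff₀ (by positivity)] at hτ2
    have h2 : τ ≤ 1 := by nlinarith
    nlinarith [mul_nonneg hc20 hτ.le, mul_le_mul_of_nonneg_left h2 (mul_nonneg hc20 hτ.le)]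
  refine ⟨τ, hτ, fun u0 hu0 => ?_⟩
  have hF1 : ∀ m, ∃ m', ∀ L, ∃ C, ∀ x : X, S.q m' x ≤ L → S.q m (FX x) ≤ C := by
    intro m
    refine ⟨m + 3, fun L => ?_⟩
    obtain ⟨C, hC⟩ := hLb m L
    refine ⟨|C| * |L|, fun x hx => ?_⟩
    have hL0 : 0 ≤ L := (S.q_nonneg _ _).trans hx
    rw [hq] at hx ⊢
    have h1 := hC x 0 hx (by simpa using hL0)
    rw [FX_zero, sub_zero, sub_zero] at h1
    refine h1.trans ?_
    refine (mul_le_mul_of_nonneg_right (le_abs_self C) (BB_nonneg _ x)).trans ?_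
    exact mul_le_mul_of_nonneg_left (hx.trans (le_abs_self L)) (abs_nonneg _)
  let E : Evo S :=
    { F := fun _ => FX
      T := τ
      τ := τ
      u0 := u0
      s := 3
      m0 := 0
      m4 := 2
      R := 2 * (1 + Λ')
      r := 1
      C1 := c1
      C2 := c2
      hτ := hτ
      hτT := le_rfl
      hC1 := hc10
      hr := one_pos
      F0 := fun t x t' x' _ _ _ hx m => FX_lim hS hLb hx m
      F1 := fun m => by
        obtain ⟨m', hm'⟩ := hF1 m
        refine ⟨m', fun L => ?_⟩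
        obtain ⟨C, hC⟩ := hm' L
        exact ⟨C, fun _ _ x hx => hC x hx⟩
      F2 := by
        refine ⟨3, fun L => ?_⟩
        obtain ⟨C, hC⟩ := hLb 0 L
        refine ⟨C, fun _ _ x y hx hy => ?_⟩
        rw [hq] at hx hy ⊢
        rw [hq]
        exact hC x y hx hy
      F3s := fun _ _ x hx _ => by
        rw [hq] at hx ⊢
        rw [hS]
        exact hc1 x ((BB_mono 2 x).trans hx)
      F3 := fun m hm L => by
        obtain ⟨C, -, hC⟩ := hEN m (le_of_lt hm) L
        refine ⟨C, fun _ _ x _ _ hx => ?_⟩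
        rw [hq] at hx ⊢
        rw [hS]
        exact hC x hx
      F4 := fun L => by
        obtain ⟨C, hC⟩ := hLa L
        refine ⟨C, fun _ _ x y _ _ _ _ hx hy => ?_⟩
        rw [hq] at hx hy ⊢
        rw [hS]
        exact hC x y hx hy
      F5 := fun _ _ x hx _ => by
        rw [hq] at hx ⊢
        exact hFb x hx
      small := by
        have h1 : Real.exp (2 * c1 * τ) < 2 :=
          (Real.exp_le_exp.2 hτ1').trans_lt exp_half_lt
        have h2 : S.q 3 u0 ≤ Λ' := by rw [hq]; exact hu0.trans (le_max_left _ _)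
        have h3 := S.q_nonneg 3 u0
        have h4 := Real.exp_pos (2 * c1 * τ)
        nlinarith
      small' := hτ2' }
  obtain ⟨u, hu⟩ := hmain X (Lp ℝ 2 (volume : Measure ℝ)) S E
  have hEτ : E.τ = τ := rfl
  have hEF : ∀ t x, E.F t x = FX x := fun _ _ => rfl
  have hder := hu.der
  have hbdd := hu.bdd
  rw [hEτ] at hder hbdd
  simp only [hEF] at hder
  -- continuity in all the norms
  have hcont : ∀ t ∈ Icc 0 τ, ∀ m, Tendsto (fun s => S.q m (u s - u t)) (𝓝[Icc 0 τ] t) (𝓝 0) := by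
    intro t ht m
    obtain ⟨η, hη, h⟩ := hder m t ht 1 one_pos
    set K := 1 + S.nrm m (FX (u t)) with hK
    have hK0 : 0 ≤ K := add_nonneg zero_le_one (S.nrm_nonneg _ _)
    have h1 : Tendsto (fun s => (K * |s - t|) ^ 2) (𝓝[Icc 0 τ] t) (𝓝 0) := by
      have : Continuous (fun s : ℝ => (K * |s - t|) ^ 2) := by fun_prop
      have h2 := this.tendsto t
      simp only [sub_self, abs_zero, mul_zero, ne_eq, OfNat.ofNat_ne_zero, not_false_eq_true,
        zero_pow] at h2
      exact h2.mono_left nhdsWithin_le_nhds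
    refine squeeze_zero' (Eventually.of_forall fun s => S.q_nonneg _ _) ?_ h1
    have h3 : ∀ᶠ s in 𝓝[Icc 0 τ] t, |s - t| ≤ η := by
      have : Metric.closedBall t η ∈ 𝓝 t := Metric.closedBall_mem_nhds t hη
      filter_upwards [mem_nhdsWithin_of_mem_nhds this] with s hs
      rwa [Metric.mem_closedBall, Real.dist_eq] at hs
    filter_upwards [h3, self_mem_nhdsWithin] with s hs hsI
    apply S.q_le_of_nrm_le
    have h4 := h s hsI hs
    have h5 : S.nrm m (u s - u t - (s - t) • FX (u t)) ≤ |s - t| := by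
      apply S.nrm_le_of_q_le _ (abs_nonneg _)
      rw [sq_abs]; linarith
    have h6 : u s - u t = (u s - u t - (s - t) • FX (u t)) + (s - t) • FX (u t) := by abel
    rw [h6]
    refine (S.nrm_add_le _ _ _).trans ?_
    rw [S.nrm_smul]
    rw [hK]
    nlinarith
  have hcontF : ∀ t ∈ Icc 0 τ, ∀ m,
      Tendsto (fun s => S.q m (FX (u s) - FX (u t))) (𝓝[Icc 0 τ] t) (𝓝 0) :=
    fun t ht m => FX_lim hS hLb (hcont t ht) m
  -- joint continuity from continuity in the norms
  have hjoint : ∀ (w : ℝ → X), (∀ t ∈ Icc 0 τ, ∀ m,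
      Tendsto (fun s => S.q m (w s - w t)) (𝓝[Icc 0 τ] t) (𝓝 0)) → ∀ k,
      ContinuousOn (fun p : ℝ × ℝ => iteratedDeriv k (w p.1).1 p.2) (Icc 0 τ ×ˢ univ) := by
    intro w hw k p hp
    have ht : p.1 ∈ Icc 0 τ := hp.1
    have h1 : Tendsto (fun q : ℝ × ℝ => Real.sqrt (S.q (k + 1) (w q.1 - w p.1)))
        (𝓝[Icc 0 τ ×ˢ univ] p) (𝓝 0) := by
      have h2 : Tendsto (fun q : ℝ × ℝ => q.1) (𝓝[Icc 0 τ ×ˢ univ] p) (𝓝[Icc 0 τ] p.1) := by
        refine tendsto_nhdsWithin_iff.2 ⟨(continuous_fst.tendsto p).mono_left nhdsWithin_le_nhds, ?_⟩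
        filter_upwards [self_mem_nhdsWithin] with q hq' using hq'.1
      have h3 := (Real.continuous_sqrt.tendsto 0).comp ((hw p.1 ht (k + 1)).comp h2)
      rw [Real.sqrt_zero] at h3
      exact h3
    have h4 : Tendsto (fun q : ℝ × ℝ => iteratedDeriv k (w p.1).1 q.2)
        (𝓝[Icc 0 τ ×ˢ univ] p) (𝓝 (iteratedDeriv k (w p.1).1 p.2)) := by
      have h5 : Continuous (fun q : ℝ × ℝ => iteratedDeriv k (w p.1).1 q.2) :=
        (contDiff_iter (w p.1).2.1 k).continuous.comp continuous_snd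
      exact (h5.tendsto p).mono_left nhdsWithin_le_nhds
    have h6 : Tendsto (fun q : ℝ × ℝ => iteratedDeriv k (w q.1).1 q.2 -
        iteratedDeriv k (w p.1).1 q.2) (𝓝[Icc 0 τ ×ˢ univ] p) (𝓝 0) := by
      refine squeeze_zero_norm (fun q => ?_) h1
      rw [Real.norm_eq_abs]
      apply Real.abs_le_sqrt
      have h7 := sup_le (w q.1 - w p.1) k q.2
      rw [hq]
      have h8 : iteratedDeriv k ((w q.1 - w p.1 : X)).1 q.2 =
          iteratedDeriv k (w q.1).1 q.2 - iteratedDeriv k (w p.1).1 q.2 := by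
        have := congrArg (fun f : X => f.1 q.2) ((D k).map_sub (w q.1) (w p.1))
        exact this
      rw [← h8]
      exact h7
    have h9 := h6.add h4
    simp only [sub_add_cancel, zero_add] at h9
    exact h9
  refine ⟨fun t => (u t).1, ?_, ?_⟩
  · refine ⟨fun t _ => (u t).2, fun t _ => (FX (u t)).2, ?_, ?_, ?_, ?_, ?_, ?_⟩
    · intro k
      obtain ⟨L, hL⟩ := hbdd k
      refine ⟨L, fun t ht => ?_⟩
      have h1 := hL t ht
      rw [hq] at h1
      exact (int_le (u t) le_rfl).trans h1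
    · intro k
      obtain ⟨m', hm'⟩ := hF1 k
      obtain ⟨L, hL⟩ := hbdd m'
      obtain ⟨C, hC⟩ := hm' L
      refine ⟨C, fun t ht => ?_⟩
      have h1 := hC _ (hL t ht)
      rw [hq] at h1
      exact (int_le (FX (u t)) le_rfl).trans h1
    · exact fun k => hjoint u hcont k
    · exact fun k => hjoint (fun t => FX (u t)) hcontF k
    · intro k x t ht
      rw [hasDerivWithinAt_iff_isLittleO, Asymptotics.isLittleO_iff]
      intro c hc
      obtain ⟨η, hη, h⟩ := hder (k + 1) t ht (c ^ 2) (by positivity)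
      have h3 : ∀ᶠ s in 𝓝[Icc 0 τ] t, |s - t| ≤ η := by
        have : Metric.closedBall t η ∈ 𝓝 t := Metric.closedBall_mem_nhds t hη
        filter_upwards [mem_nhdsWithin_of_mem_nhds this] with s hs
        rwa [Metric.mem_closedBall, Real.dist_eq] at hs
      filter_upwards [h3, self_mem_nhdsWithin] with s hs hsI
      have h4 := h s hsI hs
      have h5 := sup_le (u s - u t - (s - t) • FX (u t)) k x
      rw [hq] at h4
      have h6 : iteratedDeriv k ((u s - u t - (s - t) • FX (u t) : X)).1 x =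
          iteratedDeriv k (u s).1 x - iteratedDeriv k (u t).1 x -
            (s - t) • iteratedDeriv k (Fun (u t).1) x := by
        have h7 : D k (u s - u t - (s - t) • FX (u t)) =
            D k (u s) - D k (u t) - (s - t) • D k (FX (u t)) := by
          rw [map_sub, map_sub, map_smul]
        exact congrArg (fun f : X => f.1 x) h7
      rw [← h6, Real.norm_eq_abs, Real.norm_eq_abs]
      apply abs_le_of_sq_le_sq _ (by positivity)
      rw [mul_pow, sq_abs]
      exact h5.trans h4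
    · intro k t ht δ hδ
      obtain ⟨η, hη, h⟩ := hder k t ht δ hδ
      refine ⟨η, hη, fun s hs hst => ?_⟩
      have h4 := h s hs hst
      rw [hq] at h4
      exact (int_le (u s - u t - (s - t) • FX (u t)) le_rfl).trans h4
  · show (u 0).1 = u0.1
    rw [hu.init]

end Pool.Agent.Helper69.KL
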